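import Pool.Agent.Results.MP_ada285_co.OnlineBounded

set_option autoImplicit false

namespace Pool.Agent.Results.MP_ada285_co.LinearBound

open Pool.Agent.Results.MP_ada285_co.OnlineBounded

/-- `G` contains an induced copy of the graph `X_k`: the vertices of `X_k` are the binary strings
of length less than `k`, two strings are adjacent if one is a proper prefix of the other one and
the rest has an odd number of letters `false`. -/
def HasX (k : ℕ) {N : ℕ} (G : SimpleGraph (Fin N)) : Prop :=
  ∃ φ : List Bool → Fin N,
    (∀ l l', l.length < k → l'.length < k → φ l = φ l' → l = l') ∧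
    (∀ l l', l.length < k → l'.length < k → (G.Adj (φ l) (φ l') ↔ sadj l l'))

lemma HasX.mono {k k' : ℕ} (hk : k ≤ k') {N : ℕ} {G : SimpleGraph (Fin N)} (h : HasX k' G) :
    HasX k G := by
  obtain ⟨φ, h1, h2⟩ := h
  exact ⟨φ, fun l l' hl hl' => h1 l l' (by omega) (by omega),
    fun l l' hl hl' => h2 l l' (by omega) (by omega)⟩

/-- Every graph containing `X_{4c+2}` has on-line chromatic number larger than `c`. -/
theorem chiOL_lower {N : ℕ} (G : SimpleGraph (Fin N)) (c : ℕ) (h : HasX (4 * c + 2) G) :
    c < chiOL G := by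
  obtain ⟨A, hA, hAc⟩ := chiOL_attained G
  obtain ⟨φ, h1, h2⟩ := h
  rw [← hAc]
  exact lower A G hA c φ h1 h2

/-- The algorithm uses at most `2 k + 6` colours on a graph without `X_{k+1}`. -/
theorem alg_upper {N : ℕ} {G : SimpleGraph (Fin N)} (h : C3P6Free N G) (k : ℕ)
    (hX : ¬ HasX (k + 1) G) : chiA alg G ≤ 2 * k + 6 := by
  unfold chiA
  apply Finset.sup_le
  intro π _
  unfold numColours
  have hsub : (Finset.univ.image fun i : Fin N => colour alg G π i i.2) ⊆
      Finset.range (2 * k + 6) := by
    intro x hx
    obtain ⟨i, _, rfl⟩ := Finset.mem_image.1 hx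
    rw [colour_alg, Finset.mem_range]
    obtain ⟨hT, hP⟩ := c3p6_comap h π
    have hc := run_alg (lift (G.comap π))
    by_cases hB : Bip (lift (G.comap π)) i.1
    · obtain ⟨f, f1, f2, f3, _⟩ := (inv hP _ hc i.1 hB).emb
      by_contra hcon
      have hlev : k + 1 ≤ lev (run alg (lift (G.comap π)) i.1) := by
        unfold lev
        omega
      have hlt : ∀ l : List Bool, l.length < k + 1 → f l < N := by
        intro l hl
        have h1 := (f1 l (by omega)).le
        have h2 := i.2
        omega
      classical
      apply hX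
      refine ⟨fun l => if hl : f l < N then π ⟨f l, hl⟩ else i, ?_, ?_⟩
      · intro l l' hl hl' he
        simp only at he
        rw [dif_pos (hlt l hl), dif_pos (hlt l' hl')] at he
        have h1 := π.injective he
        have h2 : f l = f l' := congrArg Fin.val h1
        exact f2 l l' (by omega) (by omega) h2
      · intro l l' hl hl'
        simp only
        rw [dif_pos (hlt l hl), dif_pos (hlt l' hl'), ← f3 l l' (by omega) (by omega)]
        constructor
        · intro hadj
          exact ⟨hlt l hl, hlt l' hl', hadj⟩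
        · rintro ⟨_, _, hadj⟩
          exact hadj
    · have := (nonbip_colour hT hP _ hc hB).2.2.2.1
      omega
  have := Finset.card_le_card hsub
  simpa using this

lemma chiOL_le {N : ℕ} {G : SimpleGraph (Fin N)} (h : C3P6Free N G) : chiOL G ≤ chiA alg G :=
  Nat.sInf_le ⟨alg, alg_works h, rfl⟩

/-! ### The graphs `X_k` belong to the class -/

lemma sadj_par : ∀ l l' : List Bool, sadj l l' → par l' = !par l := by
  intro l
  induction l with
  | nil =>
    intro l' h
    cases l' with
    | nil => exact h.elim
    | cons b l' =>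
      have h' : par (b :: l') = false := h
      rw [h']
      rfl
  | cons b l ih =>
    intro l' h
    cases l' with
    | nil =>
      have h' : par (b :: l) = false := h
      rw [h']
      rfl
    | cons b' l' =>
      obtain ⟨rfl, h2⟩ : b = b' ∧ sadj l l' := h
      have h3 := ih l' h2
      cases b
      · simp [par, h3]
      · simp [par, h3]

lemma sadj_irrefl (l : List Bool) : ¬ sadj l l := by
  intro h
  have := sadj_par l l h
  cases hp : par l <;> simp [hp] at this

lemma step : ∀ (a r y : List Bool), sadj (a ++ r) y → a.length ≤ y.length →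
    ∃ r', y = a ++ r' ∧ par r' = !par r := by
  intro a
  induction a with
  | nil =>
    intro r y h _
    exact ⟨y, rfl, sadj_par r y h⟩
  | cons b a ih =>
    intro r y h hl
    cases y with
    | nil => simp at hl
    | cons b' y =>
      obtain ⟨rfl, h2⟩ : b = b' ∧ sadj (a ++ r) y := h
      obtain ⟨r', h3, h4⟩ := ih r y h2 (by simpa using hl)
      exact ⟨r', by rw [h3]; rfl, h4⟩

lemma sadj_append : ∀ (a r : List Bool), par r = false → sadj a (a ++ r) := by
  intro a
  induction a with
  | nil =>
    intro r hr
    cases r with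
    | nil => simp [par] at hr
    | cons b r => exact hr
  | cons b a ih =>
    intro r hr
    exact ⟨rfl, ih r hr⟩

lemma no_path {a b c d : List Bool} (hab : sadj a b) (hbc : sadj b c) (hcd : sadj c d)
    (hb : a.length ≤ b.length) (hc : a.length ≤ c.length) (hd : a.length ≤ d.length) :
    sadj a d := by
  obtain ⟨r1, rfl, p1⟩ := step a [] b (by rwa [List.append_nil]) hb
  obtain ⟨r2, rfl, p2⟩ := step a r1 c hbc hc
  obtain ⟨r3, rfl, p3⟩ := step a r2 d hcd hd
  apply sadj_append
  rw [p3, p2, p1]
  rfl

/-- Every `X_k` is an induced subgraph of a `(C3, P6)`-free graph (namely of itself). -/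
theorem exists_X (k : ℕ) : ∃ (N : ℕ) (G : SimpleGraph (Fin N)), C3P6Free N G ∧ HasX (k + 1) G := by
  have hfin : Finite {l : List Bool // l.length < k + 1} :=
    (List.finite_length_lt Bool (k + 1)).to_subtype
  obtain ⟨N, ⟨e⟩⟩ := Finite.exists_equiv_fin {l : List Bool // l.length < k + 1}
  let G : SimpleGraph (Fin N) :=
    { Adj := fun i j => sadj (e.symm i).1 (e.symm j).1
      symm := ⟨fun i j h => sadj_symm _ _ h⟩
      loopless := ⟨fun i h => sadj_irrefl _ h⟩ }
  have hG : ∀ i j, G.Adj i j ↔ sadj (e.symm i).1 (e.symm j).1 := fun i j => Iff.rfl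
  refine ⟨N, G, ⟨?_, ?_⟩, ?_⟩
  · intro s hs
    rw [SimpleGraph.is3Clique_iff] at hs
    obtain ⟨a, b, c, h1, h2, h3, -⟩ := hs
    have p1 := sadj_par _ _ ((hG a b).1 h1)
    have p2 := sadj_par _ _ ((hG a c).1 h2)
    have p3 := sadj_par _ _ ((hG b c).1 h3)
    rw [p1, p2] at p3
    cases hp : par (e.symm a).1 <;> simp [hp] at p3
  · refine ⟨fun φ => ?_⟩
    set g : Fin 6 → List Bool := fun i => (e.symm (φ i)).1 with hg
    have A : ∀ i j : Fin 6, sadj (g i) (g j) ↔ (i.val + 1 = j.val ∨ j.val + 1 = i.val) := by
      intro i j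
      rw [← SimpleGraph.pathGraph_adj, ← φ.map_adj_iff]
    obtain ⟨i, hi⟩ := Finite.exists_min (fun i => (g i).length)
    have key : ∀ b c d : Fin 6, (i.val + 1 = b.val ∨ b.val + 1 = i.val) →
        (b.val + 1 = c.val ∨ c.val + 1 = b.val) → (c.val + 1 = d.val ∨ d.val + 1 = c.val) →
        (i.val + 1 = d.val ∨ d.val + 1 = i.val) := by
      intro b c d h1 h2 h3
      exact (A i d).1 (no_path ((A i b).2 h1) ((A b c).2 h2) ((A c d).2 h3) (hi b) (hi c) (hi d))
    by_cases h2 : i.val ≤ 2
    · have := key ⟨i.val + 1, by omega⟩ ⟨i.val + 2, by omega⟩ ⟨i.val + 3, by omega⟩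
        (by simp) (by simp) (by simp)
      simp only at this
      omega
    · have h5 := i.2
      have := key ⟨i.val - 1, by omega⟩ ⟨i.val - 2, by omega⟩ ⟨i.val - 3, by omega⟩
        (Or.inr (by simp only; omega)) (Or.inr (by simp only; omega))
        (Or.inr (by simp only; omega))
      simp only at this
      omega
  · have hnil : ([] : List Bool).length < k + 1 := by simp
    classical
    refine ⟨fun l => if hl : l.length < k + 1 then e ⟨l, hl⟩ else e ⟨[], hnil⟩, ?_, ?_⟩
    · intro l l' hl hl' he
      simp only at he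
      rw [dif_pos hl, dif_pos hl'] at he
      have := e.injective he
      exact congrArg Subtype.val this
    · intro l l' hl hl'
      simp only
      rw [dif_pos hl, dif_pos hl', hG, e.symm_apply_apply, e.symm_apply_apply]

/-- **Theorem.** One on-line algorithm colours every `(C3, P6)`-free graph `G` with at most
`8 chiOL G + 8` colours, and with at most `2 k + 6` colours if `G` does not contain `X_{k+1}`;
conversely every graph containing `X_{4c+2}` has on-line chromatic number larger than `c`. So the
on-line chromatic number is bounded on a class of `(C3, P6)`-free graphs if and only if the class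
excludes some `X_k`; all `X_k` are `(C3, P6)`-free, so it is not bounded on the whole class. -/
theorem result :
    -- (1) a linear binding function, and the dependence on the largest `X_k`
    (∃ A : OnlineAlg, ∀ (N : ℕ) (G : SimpleGraph (Fin N)), C3P6Free N G →
      WorksOn A G ∧ chiA A G ≤ 8 * chiOL G + 8 ∧
        ∀ k : ℕ, ¬ HasX (k + 1) G → chiA A G ≤ 2 * k + 6) ∧
    -- (2) the lower bound, for arbitrary graphs
    (∀ (N : ℕ) (G : SimpleGraph (Fin N)) (c : ℕ), HasX (4 * c + 2) G → c < chiOL G) ∧
    -- (3) the subclasses with bounded on-line chromatic number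
    (∀ C : (N : ℕ) → SimpleGraph (Fin N) → Prop, (∀ N G, C N G → C3P6Free N G) →
      ((∃ b : ℕ, ∀ N G, C N G → chiOL G ≤ b) ↔ ∃ k : ℕ, ∀ N G, C N G → ¬ HasX k G)) ∧
    -- (4) the whole class is not one of them
    (∀ c : ℕ, ∃ (N : ℕ) (G : SimpleGraph (Fin N)), C3P6Free N G ∧ c < chiOL G) ∧
    -- (5) the answer to the question
    IsOnlineBounded C3P6Free := by
  refine ⟨⟨alg, fun N G h => ⟨alg_works h, alg_bound h, fun k hk => alg_upper h k hk⟩⟩,
    fun N G c h => chiOL_lower G c h, ?_, ?_, OnlineBounded.result⟩
  · intro C hC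
    constructor
    · rintro ⟨b, hb⟩
      refine ⟨4 * b + 2, fun N G hG hX => ?_⟩
      have h1 := chiOL_lower G b hX
      have h2 := hb N G hG
      omega
    · rintro ⟨k, hk⟩
      refine ⟨2 * k + 6, fun N G hG => ?_⟩
      have h1 : ¬ HasX (k + 1) G := fun h => hk N G hG (h.mono (by omega))
      exact (chiOL_le (hC N G hG)).trans (alg_upper (hC N G hG) k h1)
  · intro c
    obtain ⟨N, G, h1, h2⟩ := exists_X (4 * c + 1)
    exact ⟨N, G, h1, chiOL_lower G c h2⟩

end Pool.Agent.Results.MP_ada285_co.LinearBound
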